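import Mathlib
import Pool.Agent.H24.Lyness.Escape

set_option autoImplicit false

/-!
The recursion `x_{n+1} = (α_n + x_n) / x_{n-1}` with nonnegative periodic coefficients.
We determine all good periods: `p ≥ 2` is good if and only if `p = 2`.
-/

namespace Pool.Agent.Results.MP_e65cda_an.GoodIffTwo

/-- `x` is a positive solution of the recursion with coefficients `α`.  The index is shifted by
one: `x n` stands for the term with index `n - 1` of the source. -/
def IsPositiveSolution (α x : ℕ → ℝ) : Prop :=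
  0 < x 0 ∧ 0 < x 1 ∧ ∀ n, x (n + 2) = (α n + x (n + 1)) / x n

/-- `p` is the least positive integer with `α (n + p) = α n` for all `n`. -/
def HasLeastPeriod (α : ℕ → ℝ) (p : ℕ) : Prop :=
  IsLeast {q : ℕ | 0 < q ∧ ∀ n, α (n + q) = α n} p

/-- `p` is good: for every nonnegative coefficient sequence with least period `p`, every positive
solution is bounded. -/
def Good (p : ℕ) : Prop :=
  ∀ α : ℕ → ℝ, (∀ n, 0 ≤ α n) → HasLeastPeriod α p →
    ∀ x : ℕ → ℝ, IsPositiveSolution α x → BddAbove (Set.range x)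

open Pool.Agent.H24.Lyness (T orb Pos T_pos orb_pos orb_add not_bdd_of_states)

/-! ### The periods three and six with zero coefficients -/

/-- The word with `1` at position `0` and `0` elsewhere. -/
noncomputable def oneWord (p n : ℕ) : ℝ := if n % p = 0 then 1 else 0

lemma oneWord_nonneg (p n : ℕ) : 0 ≤ oneWord p n := by unfold oneWord; split_ifs <;> norm_num

lemma oneWord_period (p n : ℕ) : oneWord p (n + p) = oneWord p n := by unfold oneWord; simp

lemma oneWord_leastPeriod {p : ℕ} (hp : 0 < p) : HasLeastPeriod (oneWord p) p := by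
  refine ⟨⟨hp, oneWord_period p⟩, ?_⟩
  rintro q ⟨hq, hper⟩
  by_contra hlt
  push Not at hlt
  have h0 := hper 0
  unfold oneWord at h0
  rw [zero_add, Nat.mod_eq_of_lt hlt, if_neg (by omega)] at h0
  norm_num at h0

lemma not_good_three : ¬ Good 3 := by
  intro hg
  have hs : Pos ((1 : ℝ), (2 : ℝ)) := ⟨by norm_num, by norm_num⟩
  have hM : ∀ u v : ℝ, 0 < u → 0 < v →
      orb (oneWord 3) (u, v) 3 = ((1 + v) / (u * v), 1 / v) := by
    intro u v hu hv
    have h1v : (1 + v) ≠ 0 := by positivity
    have e : orb (oneWord 3) (u, v) 3 = T 0 (T 0 (T 1 (u, v))) := by simp [orb, oneWord]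
    rw [e]
    simp only [T]
    ext
    · simp only; field_simp; ring
    · simp only; field_simp; ring
  have hrec : ∀ k : ℕ, orb (oneWord 3) (1, 2) (2 * k * 3) = (2 ^ k, 2) := by
    intro k
    induction k with
    | zero => simp [orb]
    | succ k ih =>
      have e1 : 2 * (k + 1) * 3 = (2 * k + 1) * 3 + 3 := by ring
      have e2 : (2 * k + 1) * 3 = (2 * k) * 3 + 3 := by ring
      rw [e1, orb_add (oneWord_period 3), e2, orb_add (oneWord_period 3), ih,
        hM (2 ^ k) 2 (by positivity) (by norm_num),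
        hM ((1 + 2) / (2 ^ k * 2)) (1 / 2) (by positivity) (by norm_num)]
      ext
      · simp only; field_simp; ring
      · simp only; norm_num
  obtain ⟨x, hx, hnb⟩ := not_bdd_of_states (α := oneWord 3) hs (by
    intro B
    obtain ⟨k, hk⟩ := pow_unbounded_of_one_lt B (one_lt_two)
    exact ⟨2 * k * 3, by rw [hrec]; exact hk⟩)
  exact hnb (hg (oneWord 3) (oneWord_nonneg 3) (oneWord_leastPeriod (by norm_num)) x hx)

lemma not_good_six : ¬ Good 6 := by
  intro hg
  have hs : Pos ((1 : ℝ), (1 : ℝ)) := ⟨by norm_num, by norm_num⟩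
  have hM : ∀ u v : ℝ, 0 < u → 0 < v →
      orb (oneWord 6) (u, v) 6 = (u * v / (1 + v), v) := by
    intro u v hu hv
    have h1v : (1 + v) ≠ 0 := by positivity
    have e : orb (oneWord 6) (u, v) 6 = T 0 (T 0 (T 0 (T 0 (T 0 (T 1 (u, v)))))) := by
      simp [orb, oneWord]
    have e1 : T 0 (T 1 (u, v)) = ((1 + v) / u, (1 + v) / (u * v)) := by
      simp only [T]; congr 1; field_simp; ring
    have e2 : T 0 ((1 + v) / u, (1 + v) / (u * v)) = ((1 + v) / (u * v), 1 / v) := by
      simp only [T]; congr 1; field_simp; ring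
    have e3 : T 0 ((1 + v) / (u * v), 1 / v) = (1 / v, u / (1 + v)) := by
      simp only [T]; congr 1; field_simp; ring
    have e4 : T 0 (1 / v, u / (1 + v)) = (u / (1 + v), u * v / (1 + v)) := by
      simp only [T]; congr 1; field_simp; ring
    have e5 : T 0 (u / (1 + v), u * v / (1 + v)) = (u * v / (1 + v), v) := by
      simp only [T]; congr 1; field_simp; ring
    rw [e, e1, e2, e3, e4, e5]
  have hrec : ∀ k : ℕ, orb (oneWord 6) (1, 1) (k * 6) = ((1 / 2) ^ k, 1) := by
    intro k
    induction k with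
    | zero => simp [orb]
    | succ k ih =>
      rw [add_mul, one_mul, orb_add (oneWord_period 6), ih, hM _ _ (by positivity) (by norm_num)]
      ext
      · simp only; rw [pow_succ]; ring
      · simp only
  obtain ⟨x, hx, hnb⟩ := not_bdd_of_states (α := oneWord 6) hs (by
    intro B
    obtain ⟨k, hk⟩ := pow_unbounded_of_one_lt B (one_lt_two)
    refine ⟨k * 6 + 2, ?_⟩
    rw [orb_add (oneWord_period 6), hrec]
    have h2 : (orb (oneWord 6) ((1 / 2) ^ k, 1) 2).1 = (1 + 1) / (1 / 2) ^ k := by
      simp [orb, oneWord, T]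
    rw [h2]
    refine lt_of_lt_of_le hk ?_
    rw [le_div_iff₀ (by positivity)]
    have : (2 : ℝ) ^ k * (1 / 2) ^ k = 1 := by rw [← mul_pow]; norm_num
    rw [this]; norm_num)
  exact hnb (hg (oneWord 6) (oneWord_nonneg 6) (oneWord_leastPeriod (by norm_num)) x hx)

/-! ### The period two -/

/-- The invariant for period two. -/
noncomputable def I2 (a b x y : ℝ) : ℝ :=
  a * x + b * y + b * x / y + a * y / x + (a + b ^ 2) / y + (b + a ^ 2) / x + a * b / (x * y)

lemma I2_step {a b x y : ℝ} (ha : 0 ≤ a) (hx : 0 < x) (hy : 0 < y) :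
    I2 b a y ((a + y) / x) = I2 a b x y := by
  have h : a + y ≠ 0 := by positivity
  unfold I2
  field_simp
  ring

lemma I2_bound {a b x y K : ℝ} (ha : 0 ≤ a) (hb : 0 ≤ b) (hx : 0 < x) (hy : 0 < y)
    (hI : I2 a b x y ≤ K) : a * x ≤ K ∧ b * y ≤ K ∧ b * x ≤ K * y ∧ a * y ≤ K * x := by
  unfold I2 at hI
  have h1 : 0 ≤ a * x := by positivity
  have h2 : 0 ≤ b * y := by positivity
  have h3 : 0 ≤ b * x / y := by positivity
  have h4 : 0 ≤ a * y / x := by positivity
  have h5 : 0 ≤ (a + b ^ 2) / y := by positivity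
  have h6 : 0 ≤ (b + a ^ 2) / x := by positivity
  have h7 : 0 ≤ a * b / (x * y) := by positivity
  refine ⟨by linarith, by linarith, ?_, ?_⟩
  · have : b * x / y ≤ K := by linarith
    rwa [div_le_iff₀ hy] at this
  · have : a * y / x ≤ K := by linarith
    rwa [div_le_iff₀ hx] at this

lemma good_two : Good 2 := by
  intro α hα hper x hx
  obtain ⟨hx0, hx1, hrec⟩ := hx
  have hp2 : ∀ n, α (n + 2) = α n := hper.1.2
  have hne : α 0 ≠ α 1 := by
    intro h
    have h1 : ∀ n, α (n + 1) = α n := by
      intro n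
      induction n using Nat.twoStepInduction with
      | zero => exact h.symm
      | one => exact (hp2 0).trans h
      | more n ih1 ih2 =>
        have e1 : α (n + 2 + 1) = α (n + 1) := hp2 (n + 1)
        rw [e1, ih1, hp2 n]
    have := hper.2 (show (1 : ℕ) ∈ {q : ℕ | 0 < q ∧ ∀ n, α (n + q) = α n} from ⟨one_pos, h1⟩)
    omega
  have hpos : ∀ n, 0 < x n := by
    have : ∀ n, 0 < x n ∧ 0 < x (n + 1) := by
      intro n
      induction n with
      | zero => exact ⟨hx0, hx1⟩
      | succ n ih =>
        refine ⟨ih.2, ?_⟩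
        rw [hrec n]
        have := hα n
        have h1 := ih.1
        have h2 := ih.2
        positivity
    exact fun n => (this n).1
  have hinv : ∀ n, I2 (α n) (α (n + 1)) (x n) (x (n + 1)) = I2 (α 0) (α 1) (x 0) (x 1) := by
    intro n
    induction n with
    | zero => rfl
    | succ n ih =>
      rw [← ih, show n + 1 + 1 = n + 2 from rfl, hp2 n, hrec n]
      exact I2_step (hα n) (hpos n) (hpos (n + 1))
  set K := I2 (α 0) (α 1) (x 0) (x 1) with hK
  have hvals : ∀ n, (α n = α 0 ∧ α (n + 1) = α 1) ∨ (α n = α 1 ∧ α (n + 1) = α 0) := by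
    intro n
    induction n with
    | zero => exact Or.inl ⟨rfl, rfl⟩
    | succ n ih =>
      rw [show n + 1 + 1 = n + 2 from rfl, hp2 n]
      rcases ih with h | h
      · exact Or.inr ⟨h.2, h.1⟩
      · exact Or.inl ⟨h.2, h.1⟩
  -- one of the two coefficients is positive
  have hKpos : 0 ≤ K := by
    rw [hK]; unfold I2
    have := hα 0
    have := hα 1
    positivity
  have key : ∀ c : ℝ, 0 < c → (α 0 = c ∨ α 1 = c) → BddAbove (Set.range x) := by
    intro c hc hcc
    refine ⟨K / c + (K / c) ^ 2, ?_⟩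
    rintro _ ⟨n, rfl⟩
    have hb := I2_bound (hα n) (hα (n + 1)) (hpos n) (hpos (n + 1)) (hinv n).le
    obtain ⟨b1, b2, b3, b4⟩ := hb
    have hxn := hpos n
    have hxn1 := hpos (n + 1)
    have hKc : 0 ≤ K / c := by positivity
    have hcase : α n = c ∨ α (n + 1) = c := by
      rcases hvals n with h | h
      · rw [h.1, h.2]; exact hcc
      · rw [h.1, h.2]; exact hcc.symm
    rcases hcase with h | h
    · rw [h] at b1
      have : x n ≤ K / c := by rw [le_div_iff₀ hc]; linarith
      nlinarith [sq_nonneg (K / c)]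
    · rw [h] at b2 b3
      have h1 : x (n + 1) ≤ K / c := by rw [le_div_iff₀ hc]; linarith
      have h2 : x n ≤ (K / c) * x (n + 1) := by
        rw [div_mul_eq_mul_div, le_div_iff₀ hc]; linarith
      have h3 : (K / c) * x (n + 1) ≤ (K / c) * (K / c) := mul_le_mul_of_nonneg_left h1 hKc
      nlinarith
  rcases (hα 0).lt_or_eq with h | h
  · exact key _ h (Or.inl rfl)
  · rcases (hα 1).lt_or_eq with h' | h'
    · exact key _ h' (Or.inr rfl)
    · exact absurd (h.symm.trans h') hne

/-- The good periods are exactly `p = 2`. -/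
theorem result : ∀ p : ℕ, 2 ≤ p → (Good p ↔ p = 2) := by
  intro p hp
  constructor
  · intro hg
    by_contra h2
    by_cases h3 : p = 3
    · subst h3; exact not_good_three hg
    by_cases h6 : p = 6
    · subst h6; exact not_good_six hg
    obtain ⟨α, hα, hper, x, hx, hnb⟩ := Pool.Agent.H24.Lyness.bad_of_ne hp h2 h3 h6
    exact hnb (hg α (fun n => (hα n).le) hper x hx)
  · rintro rfl
    exact good_two

end Pool.Agent.Results.MP_e65cda_an.GoodIffTwo
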