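import Mathlib
import Pool.Agent.H24.Lyness.Escape

set_option autoImplicit false

/-!
The recursion `x_{n+1} = (α_n + x_n) / x_{n-1}` with strictly positive periodic coefficients:
all positive solutions are bounded for every sequence of positive coefficients of least period
`p ≥ 2` if and only if `p = 2`, `p = 3` or `p = 6`.
-/

namespace Pool.Agent.Results.MP_e65cda_an.PositiveCoefficients

/-- `x` is a positive solution of the recursion with coefficients `α`.  The index is shifted by
one: `x n` stands for the term with index `n - 1` of the source. -/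
def IsPositiveSolution (α x : ℕ → ℝ) : Prop :=
  0 < x 0 ∧ 0 < x 1 ∧ ∀ n, x (n + 2) = (α n + x (n + 1)) / x n

/-- `p` is the least positive integer with `α (n + p) = α n` for all `n`. -/
def HasLeastPeriod (α : ℕ → ℝ) (p : ℕ) : Prop :=
  IsLeast {q : ℕ | 0 < q ∧ ∀ n, α (n + q) = α n} p

/-- `p` is good for positive coefficients: for every sequence of strictly positive coefficients
with least period `p`, every positive solution is bounded. -/
def GoodPos (p : ℕ) : Prop :=
  ∀ α : ℕ → ℝ, (∀ n, 0 < α n) → HasLeastPeriod α p →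
    ∀ x : ℕ → ℝ, IsPositiveSolution α x → BddAbove (Set.range x)

/-! ### Six-periodic positive coefficients -/

/-- The invariant for positive coefficients of period dividing six. -/
noncomputable def I6 (a0 a1 a2 a3 a4 a5 x y : ℝ) : ℝ :=
  a2 * x + a3 * y + a1 * x / y + a4 * y / x + (a0 * a4 + a5) / x + (a5 * a1 + a0) / y +
    a5 * a0 / (x * y)

lemma I6_step {a0 a1 a2 a3 a4 a5 x y : ℝ} (ha : 0 < a0) (hx : 0 < x) (hy : 0 < y) :
    I6 a1 a2 a3 a4 a5 a0 y ((a0 + y) / x) = I6 a0 a1 a2 a3 a4 a5 x y := by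
  have h : a0 + y ≠ 0 := by positivity
  unfold I6
  field_simp
  ring

lemma bdd_of_six {α : ℕ → ℝ} (hα : ∀ n, 0 < α n) (h6 : ∀ n, α (n + 6) = α n)
    {x : ℕ → ℝ} (hx : IsPositiveSolution α x) : BddAbove (Set.range x) := by
  obtain ⟨hx0, hx1, hrec⟩ := hx
  have hpos : ∀ n, 0 < x n := by
    have : ∀ n, 0 < x n ∧ 0 < x (n + 1) := by
      intro n
      induction n with
      | zero => exact ⟨hx0, hx1⟩
      | succ n ih =>
        refine ⟨ih.2, ?_⟩
        rw [hrec n]
        have := hα n
        have h1 := ih.1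
        have h2 := ih.2
        positivity
    exact fun n => (this n).1
  have hinv : ∀ n, I6 (α n) (α (n + 1)) (α (n + 2)) (α (n + 3)) (α (n + 4)) (α (n + 5))
      (x n) (x (n + 1)) = I6 (α 0) (α 1) (α 2) (α 3) (α 4) (α 5) (x 0) (x 1) := by
    intro n
    induction n with
    | zero => rfl
    | succ n ih =>
      rw [← ih, show n + 1 + 1 = n + 2 from rfl, show n + 1 + 2 = n + 3 from rfl,
        show n + 1 + 3 = n + 4 from rfl, show n + 1 + 4 = n + 5 from rfl,
        show n + 1 + 5 = n + 6 from rfl, h6 n, hrec n]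
      exact I6_step (hα n) (hpos n) (hpos (n + 1))
  obtain ⟨m, hm, hmin⟩ := (Finset.range 6).exists_min_image α ⟨0, by simp⟩
  have hmin' : ∀ n, α m ≤ α n := by
    intro n
    have hp : Function.Periodic α 6 := h6
    rw [← hp.map_mod_nat n]
    exact hmin _ (Finset.mem_range.mpr (Nat.mod_lt _ (by norm_num)))
  set K := I6 (α 0) (α 1) (α 2) (α 3) (α 4) (α 5) (x 0) (x 1) with hK
  refine ⟨K / α m, ?_⟩
  rintro _ ⟨n, rfl⟩
  rw [le_div_iff₀ (hα m), ← hinv n]
  have p0 := hα n
  have p1 := hα (n + 1)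
  have p2 := hα (n + 2)
  have p3 := hα (n + 3)
  have p4 := hα (n + 4)
  have p5 := hα (n + 5)
  have px := hpos n
  have py := hpos (n + 1)
  have h1 : x n * α m ≤ α (n + 2) * x n := by
    have := mul_le_mul_of_nonneg_left (hmin' (n + 2)) px.le
    linarith
  have h2 : 0 ≤ α (n + 3) * x (n + 1) + α (n + 1) * x n / x (n + 1) + α (n + 4) * x (n + 1) / x n +
      (α n * α (n + 4) + α (n + 5)) / x n + (α (n + 5) * α (n + 1) + α n) / x (n + 1) +
      α (n + 5) * α n / (x n * x (n + 1)) := by positivity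
  unfold I6
  linarith

lemma goodPos_of_dvd {p : ℕ} (h : p = 2 ∨ p = 3 ∨ p = 6) : GoodPos p := by
  intro α hα hper x hx
  have hp := hper.1.2
  refine bdd_of_six hα ?_ hx
  intro n
  rcases h with rfl | rfl | rfl
  · have h1 := hp n
    have h2 := hp (n + 2)
    have h3 := hp (n + 4)
    rw [show n + 4 + 2 = n + 6 from rfl] at h3
    rw [show n + 2 + 2 = n + 4 from rfl] at h2
    rw [h3, h2, h1]
  · have h1 := hp n
    have h2 := hp (n + 3)
    rw [show n + 3 + 3 = n + 6 from rfl] at h2
    rw [h2, h1]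
  · exact hp n

/-- The good periods for strictly positive coefficients are `2`, `3` and `6`. -/
theorem result : ∀ p : ℕ, 2 ≤ p → (GoodPos p ↔ (p = 2 ∨ p = 3 ∨ p = 6)) := by
  intro p hp
  refine ⟨?_, goodPos_of_dvd⟩
  intro hg
  by_contra hcon
  push Not at hcon
  obtain ⟨α, hα, hper, x, hx, hnb⟩ :=
    Pool.Agent.H24.Lyness.bad_of_ne hp hcon.1 hcon.2.1 hcon.2.2
  exact hnb (hg α hα hper x hx)

end Pool.Agent.Results.MP_e65cda_an.PositiveCoefficients
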